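import Mathlib
import Pool.Agent.V11285.W4

/-!
# Quantum unique ergodicity along logarithmic windows of eigenfunctions

Let `M` be a compact negatively curved manifold, `φ_1, φ_2, …` an orthonormal basis of eigenfunctions, ordered by the
eigenvalues, `μ_i = |φ_i|² dvol`. Let `u_0, u_1, … ≥ 1` be reals with `log u_m ≥ m^δ` for some `δ > 0` and all large `m`, e.g.
`u_m = b^m` or `u_m = exp(√m)`. We show: for almost all `a > 0` and all `B`,

  the measures `μ_i` converge to the uniform measure along ALL indices `i` in the windows `|i - a u_m| ≤ (log u_m)^B`,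

i.e. there is quantum unique ergodicity along these windows of polylogarithmically many consecutive eigenfunctions. This holds
simultaneously for countably many manifolds and bases. For smooth test functions `f` (countably many at once) there is the rate
`|∫ f dμ_i - mean of f| ≤ (log i)^{-γ}` for every `γ < 1/2` and all but finitely many `i` in the windows.

Known before: quantum ergodicity gives some subsequence of density one, and for any one subsequence of density one there may be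
gaps in every window. For arithmetic surfaces and Hecke bases all `i` are known (Lindenstrauss, Soundararajan); here `M` has any
dimension and curvature, and the basis is arbitrary.

The structure `Basis` lists what is used: for `f` in a dense set of functions (the smooth functions) and every `p`,
`∑_{i ≤ X} |∫ f dμ_i - mean of f|^{2p} = O(X / (log X)^p)`. This is Zelditch's theorem (On the rate of quantum ergodicity I,
Comm. Math. Phys. 160 (1994)), with Weyl's law.

The proof: Markov's inequality for large `p` shows that at most `X / (log X)^P` indices `i ≤ X` are exceptional, for every `P`,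
and the lemma of Borel and Cantelli, `Pool.Agent.V11285.W4.ae_log`.
-/

set_option autoImplicit false

open Filter Topology MeasureTheory

namespace Pool.Agent.Results.MP_07c750_an.LogWindows

/-- The measures `μ i = |φ_i|² dvol` (for `i ≥ 1`) of an orthonormal basis of eigenfunctions of the Laplacian of a compact
negatively curved manifold `M`, ordered by the eigenvalues, the uniform measure `unif`, and what is used of them: the moments of
the deviations for the `smooth` functions. -/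
structure Basis (M : Type) [MetricSpace M] [CompactSpace M] [MeasurableSpace M] [BorelSpace M] where
  μ : ℕ → ProbabilityMeasure M
  unif : ProbabilityMeasure M
  smooth : Set C(M, ℝ)
  dense : Dense smooth
  moments : ∀ f ∈ smooth, ∀ p : ℕ, ∃ C : ℝ, ∀ X : ℕ, 2 ≤ X →
    ∑ i ∈ Finset.Icc 1 X, |∫ x, f x ∂(μ i : Measure M) - ∫ x, f x ∂(unif : Measure M)| ^ (2 * p) ≤
      C * X / (Real.log X) ^ p

/-- `log u_m ≥ m^δ` for some `δ > 0` and all large `m` -/
def Fast (u : ℕ → ℝ) : Prop := ∃ δ : ℝ, 0 < δ ∧ ∀ᶠ m : ℕ in atTop, (m : ℝ) ^ δ ≤ Real.log (u m)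

/-- the indices in the windows around `a u_m` -/
def Windows (u : ℕ → ℝ) (a : ℝ) (B : ℕ) : Set ℕ := {i | ∃ m : ℕ, |(i : ℝ) - a * u m| ≤ (Real.log (u m)) ^ B}

section
variable {M : Type} [MetricSpace M] [CompactSpace M] [MeasurableSpace M] [BorelSpace M]

/-- the deviation -/
noncomputable def dev (P : Basis M) (f : C(M, ℝ)) (i : ℕ) : ℝ :=
  |∫ x, f x ∂(P.μ i : Measure M) - ∫ x, f x ∂(P.unif : Measure M)|

/-- few indices have a large deviation -/
theorem few (P : Basis M) {f : C(M, ℝ)} (hf : f ∈ P.smooth) {γ : ℝ} (hγ0 : 0 < γ) (hγ : γ < 1 / 2) (Q : ℕ) :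
    ∃ X₀ : ℕ, ∀ X : ℕ, X₀ ≤ X →
      ({i : ℕ | 1 ≤ i ∧ i ≤ X ∧ (3 ≤ i ∧ (Real.log i) ^ (-γ) < dev P f i)}.ncard : ℝ) ≤ X / Real.log X ^ Q := by
  classical
  obtain ⟨p, hp⟩ := exists_nat_ge (((Q : ℝ) + 1) / (1 - 2 * γ))
  have hγ1 : 0 < 1 - 2 * γ := by linarith
  have hp' : (Q : ℝ) + 1 ≤ p * (1 - 2 * γ) := by rwa [div_le_iff₀ hγ1] at hp
  obtain ⟨C, hC⟩ := P.moments f hf p
  have hlog : Tendsto (fun X : ℕ => Real.log (X : ℝ)) atTop atTop :=
    Real.tendsto_log_atTop.comp tendsto_natCast_atTop_atTop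
  obtain ⟨X₁, hX₁⟩ := (hlog.eventually_ge_atTop (max 1 |C|)).exists_forall_of_atTop
  refine ⟨max 3 X₁, fun X hX => ?_⟩
  have hX3 : 3 ≤ X := (le_max_left _ _).trans hX
  have hL := hX₁ X ((le_max_right _ _).trans hX)
  set L : ℝ := Real.log X with hLdef
  have hL1 : 1 ≤ L := (le_max_left _ _).trans hL
  have hLC : |C| ≤ L := (le_max_right _ _).trans hL
  have hL0 : 0 < L := by linarith
  set S : Set ℕ := {i : ℕ | 1 ≤ i ∧ i ≤ X ∧ (3 ≤ i ∧ (Real.log i) ^ (-γ) < dev P f i)} with hS
  have hfin : S.Finite := (Set.finite_Icc 1 X).subset fun i hi => ⟨hi.1, hi.2.1⟩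
  rw [Set.ncard_eq_toFinset_card _ hfin]
  set G := hfin.toFinset with hG
  have h1 : ∀ i ∈ G, L ^ (-(2 * p * γ) : ℝ) ≤ dev P f i ^ (2 * p) := by
    intro i hi
    obtain ⟨h11, h12, h13, h14⟩ := hfin.mem_toFinset.1 hi
    have hi3 : (3 : ℝ) ≤ i := by exact_mod_cast h13
    have hli : 0 < Real.log i := Real.log_pos (by linarith)
    have h2 : L ^ (-γ) ≤ (Real.log i) ^ (-γ) := by
      apply Real.rpow_le_rpow_of_nonpos hli _ (by linarith)
      exact Real.log_le_log (by linarith) (by exact_mod_cast h12)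
    have h3 : L ^ (-γ) ≤ dev P f i := h2.trans h14.le
    have h4 : L ^ (-(2 * p * γ) : ℝ) = (L ^ (-γ)) ^ (2 * p) := by
      rw [← Real.rpow_natCast, ← Real.rpow_mul hL0.le]
      congr 1
      push_cast
      ring
    rw [h4]
    exact pow_le_pow_left₀ (by positivity) h3 _
  have h2 : (G.card : ℝ) * L ^ (-(2 * p * γ) : ℝ) ≤ C * X / L ^ p := by
    have h3 := Finset.sum_le_sum h1
    rw [Finset.sum_const, nsmul_eq_mul] at h3
    refine h3.trans (le_trans ?_ (hC X (by omega)))
    refine Finset.sum_le_sum_of_subset_of_nonneg (fun i hi => ?_) fun i _ _ => pow_nonneg (abs_nonneg _) _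
    obtain ⟨h11, h12, -⟩ := hfin.mem_toFinset.1 hi
    exact Finset.mem_Icc.2 ⟨h11, h12⟩
  have h3 : (G.card : ℝ) ≤ C * X / L ^ p * L ^ (2 * p * γ : ℝ) := by
    have h4 : L ^ (-(2 * p * γ) : ℝ) * L ^ (2 * p * γ : ℝ) = 1 := by
      rw [← Real.rpow_add hL0, neg_add_cancel, Real.rpow_zero]
    calc (G.card : ℝ) = (G.card : ℝ) * L ^ (-(2 * p * γ) : ℝ) * L ^ (2 * p * γ : ℝ) := by rw [mul_assoc, h4, mul_one]
      _ ≤ _ := mul_le_mul_of_nonneg_right h2 (by positivity)
  refine h3.trans ?_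
  have h5 : C * X / L ^ p * L ^ (2 * p * γ : ℝ) = C * X * L ^ (-(p * (1 - 2 * γ)) : ℝ) := by
    rw [div_eq_mul_inv, ← Real.rpow_natCast L p, ← Real.rpow_neg hL0.le, mul_assoc, ← Real.rpow_add hL0]
    congr 2
    ring
  have h6 : (X : ℝ) / L ^ Q = X * L ^ (-(Q : ℝ)) := by
    rw [div_eq_mul_inv, ← Real.rpow_natCast L Q, ← Real.rpow_neg hL0.le]
  rw [h5, h6]
  have h7 : L ^ (-(p * (1 - 2 * γ)) : ℝ) ≤ L ^ (-((Q : ℝ) + 1)) := Real.rpow_le_rpow_of_exponent_le hL1 (by linarith)
  have h8 : L ^ (-((Q : ℝ) + 1)) = L ^ (-(Q : ℝ)) * L⁻¹ := by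
    rw [neg_add, Real.rpow_add hL0, Real.rpow_neg_one]
  calc C * X * L ^ (-(p * (1 - 2 * γ)) : ℝ) ≤ |C| * X * L ^ (-(p * (1 - 2 * γ)) : ℝ) := by
        refine mul_le_mul_of_nonneg_right (mul_le_mul_of_nonneg_right (le_abs_self C) (Nat.cast_nonneg _)) (by positivity)
    _ ≤ L * X * (L ^ (-(Q : ℝ)) * L⁻¹) := by
        rw [← h8]
        exact mul_le_mul (mul_le_mul_of_nonneg_right hLC (Nat.cast_nonneg _)) h7 (by positivity) (by positivity)
    _ = X * L ^ (-(Q : ℝ)) := by
        field_simp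

/-- one test function: the rate along the windows -/
theorem rate_one (P : Basis M) {f : C(M, ℝ)} (hf : f ∈ P.smooth) {u : ℕ → ℝ} (hu : ∀ m, 1 ≤ u m) (hfast : Fast u)
    {γ : ℝ} (hγ0 : 0 < γ) (hγ : γ < 1 / 2) (B : ℕ) :
    ∀ᵐ a : ℝ, 0 < a → ∀ᶠ i : ℕ in atTop, i ∈ Windows u a B → dev P f i ≤ (Real.log i) ^ (-γ) := by
  have h1 := Pool.Agent.V11285.W4.ae_log (fun i => 3 ≤ i ∧ (Real.log i) ^ (-γ) < dev P f i) (few P hf hγ0 hγ) hu hfast B
  filter_upwards [h1] with a ha ha0
  obtain ⟨m₀, hm₀⟩ := ha ha0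
  set Z : ℝ := ∑ m ∈ Finset.range m₀, (a * u m + (Real.log (u m)) ^ B) with hZ
  have hterm : ∀ m, 0 ≤ a * u m + (Real.log (u m)) ^ B := fun m => by
    have h2 := hu m
    have h3 := Real.log_nonneg h2
    positivity
  filter_upwards [eventually_gt_atTop (max 3 ⌈Z⌉₊)] with i hi hW
  obtain ⟨m, hm⟩ := hW
  have hi3 : 3 ≤ i := (le_max_left _ _).trans hi.le
  by_cases hmm : m < m₀
  · exfalso
    have h2 := Finset.single_le_sum (f := fun m => a * u m + (Real.log (u m)) ^ B) (fun m _ => hterm m)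
      (Finset.mem_range.2 hmm)
    have h3 : (i : ℝ) ≤ a * u m + (Real.log (u m)) ^ B := by
      have := (abs_le.1 hm).2
      linarith
    have h4 : (i : ℝ) ≤ Z := h3.trans h2
    have h5 : ⌈Z⌉₊ < i := (le_max_right _ _).trans_lt hi
    have h6 : Z < i := Nat.lt_of_ceil_lt h5
    linarith
  · have h2 := hm₀ m (not_lt.1 hmm) i (by omega) hm
    by_contra hcon
    exact h2 ⟨hi3, not_le.1 hcon⟩

/-- one basis: convergence along the windows -/
theorem conv_one (P : Basis M) {u : ℕ → ℝ} (hu : ∀ m, 1 ≤ u m) (hfast : Fast u) (B : ℕ) :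
    ∀ᵐ a : ℝ, 0 < a → Tendsto P.μ (atTop ⊓ 𝓟 (Windows u a B)) (𝓝 P.unif) := by
  obtain ⟨T, hTs, hTc, hTd⟩ := P.dense.exists_countable_dense_subset
  have h1 : ∀ᵐ a : ℝ, ∀ f ∈ T, 0 < a → ∀ᶠ i : ℕ in atTop, i ∈ Windows u a B →
      dev P f i ≤ (Real.log i) ^ (-(1 / 4) : ℝ) := by
    rw [ae_ball_iff hTc]
    intro f hf
    exact rate_one P (hTs hf) hu hfast (by norm_num) (by norm_num) B
  filter_upwards [h1] with a ha ha0
  rw [ProbabilityMeasure.tendsto_iff_forall_integral_tendsto]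
  intro f
  rw [Metric.tendsto_nhds]
  intro ε hε
  obtain ⟨g, hgT, hg⟩ := hTd.exists_dist_lt f.toContinuousMap (show 0 < ε / 3 by positivity)
  have hlim : Tendsto (fun i : ℕ => (Real.log (i : ℝ)) ^ (-(1 / 4) : ℝ)) atTop (𝓝 0) :=
    (tendsto_rpow_neg_atTop (by norm_num)).comp (Real.tendsto_log_atTop.comp tendsto_natCast_atTop_atTop)
  have hev : ∀ᶠ i : ℕ in atTop, i ∈ Windows u a B → dev P g i < ε / 3 := by
    filter_upwards [ha g hgT ha0, hlim.eventually_lt_const (show 0 < ε / 3 by positivity)] with i h2 h3 h4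
    exact (h2 h4).trans_lt h3
  have hdiff : ∀ ν : ProbabilityMeasure M, |∫ x, f x ∂(ν : Measure M) - ∫ x, g x ∂(ν : Measure M)| ≤ ε / 3 := by
    intro ν
    have hif : Integrable (fun x => f x) (ν : Measure M) := f.integrable _
    have hig : Integrable (fun x => g x) (ν : Measure M) :=
      (BoundedContinuousFunction.mkOfCompact g).integrable (ν : Measure M)
    rw [← integral_sub hif hig]
    have h2 : ∀ x, ‖f x - g x‖ ≤ ε / 3 := by
      intro x
      have h3 := ContinuousMap.dist_apply_le_dist (f := f.toContinuousMap) (g := g) x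
      rw [Real.dist_eq] at h3
      exact h3.trans hg.le
    have h3 := norm_integral_le_of_norm_le_const (μ := (ν : Measure M)) (Filter.Eventually.of_forall h2)
    simpa using h3
  rw [Filter.eventually_inf_principal]
  filter_upwards [hev] with i h2 hW
  have h3 := h2 hW
  have h4 := hdiff (P.μ i)
  have h5 := hdiff P.unif
  unfold dev at h3
  rw [Real.dist_eq]
  rw [abs_lt] at h3 ⊢
  rw [abs_le] at h4 h5
  constructor <;> linarith [h3.1, h3.2, h4.1, h4.2, h5.1, h5.2]

end

/-- **Theorem.** Let `P j` be bases of eigenfunctions of countably many compact negatively curved manifolds, `u_m ≥ 1`,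
`log u_m ≥ m^δ` for large `m`. (1) For almost all `a > 0`, for all `j` and `B`, the measures `μ_i` of `P j` converge to the
uniform measure along all indices `i` in the windows `|i - a u_m| ≤ (log u_m)^B`. (2) For countably many smooth test functions
`f`, for almost all `a > 0`, for all `B` and `γ < 1/2` the deviation is at most `(log i)^{-γ}` for all large `i` in the
windows. -/
theorem result {J : Type} [Countable J] (M : J → Type) [∀ j, MetricSpace (M j)] [∀ j, CompactSpace (M j)]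
    [∀ j, MeasurableSpace (M j)] [∀ j, BorelSpace (M j)] (P : ∀ j, Basis (M j)) (u : ℕ → ℝ) (hu : ∀ m, 1 ≤ u m)
    (hfast : Fast u) :
    (∀ᵐ a : ℝ, 0 < a → ∀ (j : J) (B : ℕ), Tendsto (P j).μ (atTop ⊓ 𝓟 (Windows u a B)) (𝓝 (P j).unif)) ∧
    (∀ T : ∀ j, Set C(M j, ℝ), (∀ j, (T j).Countable) → (∀ j, T j ⊆ (P j).smooth) →
      ∀ᵐ a : ℝ, 0 < a → ∀ (j : J) (B : ℕ) (γ : ℝ), γ < 1 / 2 → ∀ f ∈ T j,
        ∀ᶠ i : ℕ in atTop, i ∈ Windows u a B →
          |∫ x, f x ∂((P j).μ i : Measure (M j)) - ∫ x, f x ∂((P j).unif : Measure (M j))| ≤ (Real.log i) ^ (-γ)) := by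
  constructor
  · have h : ∀ᵐ a : ℝ, ∀ (j : J) (B : ℕ), 0 < a → Tendsto (P j).μ (atTop ⊓ 𝓟 (Windows u a B)) (𝓝 (P j).unif) :=
      ae_all_iff.2 fun j => ae_all_iff.2 fun B => conv_one (P j) hu hfast B
    filter_upwards [h] with a ha ha0 j B
    exact ha j B ha0
  · intro T hTc hTs
    have h : ∀ᵐ a : ℝ, ∀ (j : J) (B : ℕ) (k : ℕ), ∀ f ∈ T j, 0 < a → ∀ᶠ i : ℕ in atTop, i ∈ Windows u a B →
        dev (P j) f i ≤ (Real.log i) ^ (-(1 / 2 - 1 / ((k : ℝ) + 3))) := by
      refine ae_all_iff.2 fun j => ae_all_iff.2 fun B => ae_all_iff.2 fun k => ?_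
      rw [ae_ball_iff (hTc j)]
      intro f hf
      have hk3 : (0 : ℝ) < (k : ℝ) + 3 := by positivity
      refine rate_one (P j) (hTs j hf) hu hfast ?_ ?_ B
      · rw [sub_pos, div_lt_div_iff₀ hk3 (by norm_num)]
        linarith [(Nat.cast_nonneg k : (0 : ℝ) ≤ k)]
      · have : 0 < 1 / ((k : ℝ) + 3) := by positivity
        linarith
    filter_upwards [h] with a ha ha0 j B γ hγ f hf
    obtain ⟨k, hk⟩ := exists_nat_one_div_lt (show 0 < 1 / 2 - γ by linarith)
    have hk3 : 1 / ((k : ℝ) + 3) ≤ 1 / ((k : ℝ) + 1) :=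
      one_div_le_one_div_of_le (by positivity) (by linarith)
    filter_upwards [ha j B k f hf ha0, eventually_ge_atTop 3] with i h2 hi3 hW
    refine (h2 hW).trans ?_
    have hi : (3 : ℝ) ≤ i := by exact_mod_cast hi3
    have hexp : Real.exp 1 ≤ i := by
      have := Real.exp_one_lt_d9
      linarith
    have hl1 : 1 ≤ Real.log i := by
      rw [Real.le_log_iff_exp_le (by linarith)]
      exact hexp
    exact Real.rpow_le_rpow_of_exponent_le hl1 (by linarith)

end Pool.Agent.Results.MP_07c750_an.LogWindows
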